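import Pool.Agent.Lib.helper8.Signs

set_option autoImplicit false

namespace Pool.Agent.H.MP_64e20d_co

open Metric

theorem far {X : Type} [MetricSpace X]
    (h4 : ∀ x y z w : X, dist x y + dist z w ≤ max (dist x z + dist y w) (dist x w + dist y z))
    (c c' : X) (r : ℝ) (h : ∃ p ∈ closedBall c r, ∃ q ∈ closedBall c r, dist p q = 2 * r) :
    ∃ a, dist a c ≤ r ∧ r + dist c c' ≤ dist a c' := by
  obtain ⟨p, hp, q, hq, e⟩ := h
  rw [mem_closedBall] at hp hq
  rcases le_max_iff.1 (h4 p q c c') with h | h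
  · exact ⟨q, hq, by linarith⟩
  · exact ⟨p, hp, by linarith⟩

theorem formula {X : Type} [MetricSpace X]
    (hg : ∀ (x y : X) (s : ℝ), 0 ≤ s → s ≤ dist x y → ∃ z, dist x z = s ∧ dist z y = dist x y - s)
    (h4 : ∀ x y z w : X, dist x y + dist z w ≤ max (dist x z + dist y w) (dist x w + dist y z))
    (c c' : X) (r r' τ : ℝ) (hτ : 0 < τ)
    (h : ∃ p ∈ closedBall c r, ∃ q ∈ closedBall c r, dist p q = 2 * r)
    (h' : ∃ p ∈ closedBall c' r', ∃ q ∈ closedBall c' r', dist p q = 2 * r') :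
    (∃ p ∈ closedBall c r ∩ closedBall c' r', ∃ q ∈ closedBall c r ∩ closedBall c' r',
      τ ≤ dist p q) ↔ (τ ≤ 2 * r ∧ τ ≤ 2 * r' ∧ τ ≤ r + r' - dist c c') := by
  constructor
  · rintro ⟨p, ⟨p1, p2⟩, q, ⟨q1, q2⟩, e⟩
    rw [mem_closedBall] at p1 p2 q1 q2
    have t1 := dist_triangle_right p q c
    have t2 := dist_triangle_right p q c'
    refine ⟨by linarith, by linarith, ?_⟩
    rcases le_max_iff.1 (h4 p q c c') with h | h <;> linarith
  · rintro ⟨e1, e2, e3⟩
    have cc := dist_comm c c'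
    by_cases n1 : dist c c' + r ≤ r'
    · obtain ⟨p, hp, q, hq, e⟩ := h
      have s : closedBall c r ⊆ closedBall c' r' := closedBall_subset_closedBall' (by linarith)
      exact ⟨p, ⟨hp, s hp⟩, q, ⟨hq, s hq⟩, by linarith⟩
    by_cases n2 : dist c c' + r' ≤ r
    · obtain ⟨p, hp, q, hq, e⟩ := h'
      have s : closedBall c' r' ⊆ closedBall c r := closedBall_subset_closedBall' (by linarith)
      exact ⟨p, ⟨s hp, hp⟩, q, ⟨s hq, hq⟩, by linarith⟩
    push Not at n1 n2
    obtain ⟨a, a1, a2⟩ := far h4 c c' r h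
    obtain ⟨b, b1, b2⟩ := far h4 c' c r' h'
    have a3 := dist_triangle a c c'
    have b3 := dist_triangle b c' c
    have ab : r + r' + dist c c' ≤ dist a b := by
      have := dist_comm c' b
      rcases le_max_iff.1 (h4 a c' b c) with h | h <;> linarith
    have ca := dist_comm c' a
    have cb := dist_comm c b
    obtain ⟨p, p1, p2⟩ := hg c' a r' (by linarith) (by linarith)
    obtain ⟨q, q1, q2⟩ := hg c b r (by linarith) (by linarith)
    have p3 := dist_comm c' p
    have q3 := dist_comm c q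
    have ca' := dist_comm c a
    have cb' := dist_comm c' b
    refine ⟨p, ⟨mem_closedBall.2 ?_, mem_closedBall.2 (by linarith)⟩, q,
      ⟨mem_closedBall.2 (by linarith), mem_closedBall.2 ?_⟩, ?_⟩
    · rcases le_max_iff.1 (h4 p c a c') with h | h <;> linarith
    · rcases le_max_iff.1 (h4 q c' b c) with h | h <;> linarith
    · have := dist_triangle4 a p q b
      have := dist_comm a p
      linarith

theorem parent {V : Type} [Fintype V] (g : V → V → ℝ) (hs : ∀ x y, g x y = g y x)
    (hu : ∀ x y z, min (g x y) (g y z) ≤ g x z) :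
    ∃ (p : V → V) (γ : V → ℝ), ∀ x y, x ≠ y → ∀ θ : ℝ,
      (θ ≤ g x y ↔ Relation.EqvGen (fun a b => θ ≤ γ a ∧ b = p a) x y) := by
  classical
  let e := Fintype.equivFin V
  have ex : ∀ x, ∃ z, ∀ y, (e y).val < (e x).val → (e z).val < (e x).val ∧ g x y ≤ g x z := by
    intro x
    rcases (Finset.univ.filter (fun y => (e y).val < (e x).val)).eq_empty_or_nonempty with h | h
    · refine ⟨x, fun y hy => ?_⟩
      have : y ∈ Finset.univ.filter (fun y => (e y).val < (e x).val) := by simpa using hy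
      rw [h] at this
      simp at this
    · obtain ⟨z, hz, hm⟩ := Finset.exists_max_image _ (g x) h
      exact ⟨z, fun y hy => ⟨by simpa using hz, hm y (by simpa using hy)⟩⟩
  choose p hp using ex
  refine ⟨p, fun x => g x (p x), fun x y hxy θ => ⟨?_, fun h => ?_⟩⟩
  · have key : ∀ N : ℕ, ∀ x y, (e x).val + (e y).val = N → θ ≤ g x y →
        Relation.EqvGen (fun a b => θ ≤ g a (p a) ∧ b = p a) x y := by
      intro N
      induction N using Nat.strong_induction_on with
      | _ N ih =>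
        have step : ∀ x y, (e x).val + (e y).val = N → (e y).val < (e x).val → θ ≤ g x y →
            Relation.EqvGen (fun a b => θ ≤ g a (p a) ∧ b = p a) x y := by
          intro x y hN hlt h
          have h1 := hp x y hlt
          refine Relation.EqvGen.trans _ (p x) _ (Relation.EqvGen.rel _ _ ⟨h.trans h1.2, rfl⟩) ?_
          refine ih _ (by omega) (p x) y rfl (le_trans ?_ (hu (p x) x y))
          exact le_min (by rw [hs]; exact h.trans h1.2) h
        intro x y hN h
        rcases lt_trichotomy (e x).val (e y).val with h1 | h1 | h1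
        · exact (step y x (by omega) h1 (by rwa [hs])).symm
        · rw [e.injective (Fin.ext h1)]; exact Relation.EqvGen.refl _
        · exact step x y hN h1 h
    exact key _ x y rfl
  · have key : ∀ x y, Relation.EqvGen (fun a b => θ ≤ g a (p a) ∧ b = p a) x y →
        x = y ∨ θ ≤ g x y := by
      intro x y h
      induction h with
      | rel a b h => right; rw [h.2]; exact h.1
      | refl a => left; rfl
      | symm a b _ ih => rw [hs]; exact ih.imp Eq.symm id
      | trans a b c _ _ i1 i2 =>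
        rcases i1 with rfl | i1
        · exact i2
        rcases i2 with rfl | i2
        · exact Or.inr i1
        exact Or.inr (le_trans (le_min i1 i2) (hu a b c))
    exact (key x y h).resolve_left hxy

def form {V : Type} (i : Bool × V × V × V) : Module.Dual ℝ (Fin 4 × V → ℝ) :=
  let P : Fin 4 → V → Module.Dual ℝ (Fin 4 × V → ℝ) := fun k a => LinearMap.proj (k, a)
  if i.1 then P 0 i.2.1 - P 2 i.2.1 - P 2 i.2.2.1 - P 3 i.2.2.2
  else P 0 i.2.1 - P 1 i.2.2.1 - P 1 i.2.2.1

def dec {V : Type} (p : V → V) (s : Finset (Bool × V × V × V)) : SimpleGraph V :=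
  SimpleGraph.fromRel (fun u w => (false, u, u, u) ∉ s ∧ (false, u, w, w) ∉ s ∧
    Relation.EqvGen (fun a b => (true, u, w, a) ∉ s ∧ b = p a) u w)

theorem code {V X : Type} [Fintype V] [Nonempty V] [MetricSpace X]
    (h4 : ∀ x y z w : X, dist x y + dist z w ≤ max (dist x z + dist y w) (dist x w + dist y z))
    (G : SimpleGraph V) (c : V → X) (r t : V → ℝ)
    (h : ∀ x y, x ≠ y → (G.Adj x y ↔ min (t x) (t y) ≤ 2 * r x ∧ min (t x) (t y) ≤ 2 * r y ∧
      min (t x) (t y) ≤ r x + r y - dist (c x) (c y))) :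
    ∃ (p : V → V) (s : Finset (Bool × V × V × V)),
      (∃ x, ∀ i, i ∈ s ↔ 0 < form i x) ∧ G = dec p s := by
  classical
  obtain ⟨o⟩ := ‹Nonempty V›
  obtain ⟨p, γ, hp⟩ := parent
    (fun x y => dist (c x) (c o) + dist (c y) (c o) - dist (c x) (c y))
    (fun x y => by rw [dist_comm (c x) (c y)]; ring)
    (fun x y z => by
      have := dist_comm (c z) (c y)
      rcases le_max_iff.1 (h4 (c x) (c z) (c y) (c o)) with h | h
      · exact le_trans (min_le_left _ _) (by linarith)
      · exact le_trans (min_le_right _ _) (by linarith))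
  let x : Fin 4 × V → ℝ := fun q => ![t, r, fun v => r v - dist (c v) (c o), γ] q.1 q.2
  refine ⟨p, Finset.univ.filter (fun i => 0 < form i x), ⟨x, fun i => by simp⟩, ?_⟩
  have e0 : ∀ u w z, form (false, u, w, z) x = t u - r w - r w := fun u w z => by simp [form, x]
  have e1 : ∀ u w z, form (true, u, w, z) x =
      t u - (r u - dist (c u) (c o)) - (r w - dist (c w) (c o)) - γ z := fun u w z => by
    simp [form, x]
  have key : ∀ u w, u ≠ w → ((t u - r u - r u ≤ 0 ∧ t u - r w - r w ≤ 0 ∧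
      Relation.EqvGen (fun a b =>
        t u - (r u - dist (c u) (c o)) - (r w - dist (c w) (c o)) - γ a ≤ 0 ∧ b = p a) u w) ↔
      (t u ≤ 2 * r u ∧ t u ≤ 2 * r w ∧ t u ≤ r u + r w - dist (c u) (c w))) := by
    intro u w huw
    simp only [sub_nonpos (b := γ _)]
    rw [← hp u w huw]
    constructor <;> rintro ⟨h1, h2, h3⟩ <;> refine ⟨?_, ?_, ?_⟩ <;> linarith
  ext a b
  simp only [dec, SimpleGraph.fromRel_adj, Finset.mem_filter, Finset.mem_univ, true_and, e0, e1,
    not_lt]
  by_cases hab : a = b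
  · simp [hab]
  rw [h a b hab, key a b hab, key b a (Ne.symm hab), dist_comm (c b) (c a)]
  simp only [ne_eq, hab, not_false_eq_true, true_and]
  constructor
  · rintro ⟨h1, h2, h3⟩
    rcases min_cases (t a) (t b) with h | h <;> rw [h.1] at h1 h2 h3
    · exact Or.inl ⟨h1, h2, h3⟩
    · exact Or.inr ⟨h2, h1, by linarith⟩
  · have := min_le_left (t a) (t b)
    have := min_le_right (t a) (t b)
    rintro (⟨h1, h2, h3⟩ | ⟨h1, h2, h3⟩) <;> refine ⟨?_, ?_, ?_⟩ <;> linarith

abbrev W (B m : ℕ) := (Fin B × Fin m) ⊕ (Fin (2 * B) × Fin m)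

def R {B m : ℕ} (σ : Fin B → Fin 32 → Equiv.Perm (Fin m)) (p : Fin B × Fin m)
    (q : Fin (2 * B) × Fin m) : Prop :=
  q.1.val ≤ p.1.val ∨ ∃ e : Fin 32, q.1.val = p.1.val + 2 ^ e.val ∧ σ p.1 e p.2 = q.2

def gr {B m : ℕ} (σ : Fin B → Fin 32 → Equiv.Perm (Fin m)) : SimpleGraph (W B m) where
  Adj
    | .inl _, .inl _ => False
    | .inl p, .inr q => R σ p q
    | .inr q, .inl p => R σ p q
    | .inr q, .inr q' => q ≠ q'
  symm := ⟨by rintro (p | p) (q | q) h; exacts [h, h, h, Ne.symm h]⟩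
  loopless := ⟨by rintro (p | p) h; exacts [h, h rfl]⟩

theorem gamma {B m : ℕ} (σ : Fin B → Fin 32 → Equiv.Perm (Fin m)) {p p' : Fin B × Fin m}
    {q q' : Fin (2 * B) × Fin m} (hp : p.1.val ≤ p'.1.val) (hq : q'.1.val ≤ q.1.val)
    (np : p ≠ p') (nq : q ≠ q') (h1 : R σ p q) (h2 : R σ p q') (h3 : R σ p' q) : R σ p' q' := by
  by_contra hn
  have lt : p'.1.val < q'.1.val := by
    by_contra h
    exact hn (Or.inl (by omega))
  obtain ⟨j, j1, j2⟩ := h1.resolve_left (by omega)
  obtain ⟨i, i1, i2⟩ := h2.resolve_left (by omega)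
  obtain ⟨l, l1, l2⟩ := h3.resolve_left (by omega)
  have ij : i.val < j.val := by
    rcases lt_trichotomy i.val j.val with h | h | h
    · exact h
    · rw [Fin.ext h] at i1 i2
      exact absurd (Prod.ext (Fin.ext (by omega)) (j2.symm.trans i2)) nq
    · have := Nat.pow_lt_pow_right (a := 2) (by norm_num) h
      omega
  have lj : l.val < j.val := by
    rcases lt_trichotomy l.val j.val with h | h | h
    · exact h
    · rw [Fin.ext h] at l1 l2
      have e : p.1 = p'.1 := Fin.ext (by omega)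
      rw [← e] at l2
      exact absurd (Prod.ext e ((σ p.1 j).injective (j2.trans l2.symm))) np
    · have := Nat.pow_lt_pow_right (a := 2) (by norm_num) h
      omega
  have b1 := Nat.pow_le_pow_right (n := 2) (by norm_num) (Nat.succ_le_of_lt ij)
  have b2 := Nat.pow_le_pow_right (n := 2) (by norm_num) (Nat.succ_le_of_lt lj)
  rw [pow_succ] at b1 b2
  omega

theorem gr_inj {B m : ℕ} (hB : B = 2 ^ 31) :
    Function.Injective (fun σ : Fin B → Fin 32 → Equiv.Perm (Fin m) => gr σ) := by
  intro σ σ' h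
  funext a e
  ext i
  have b1 := Nat.pow_le_pow_right (n := 2) (by norm_num) (show e.val ≤ 31 by omega)
  have b0 : 0 < 2 ^ e.val := by positivity
  have : (gr σ).Adj (.inl (a, i)) (.inr (⟨a.val + 2 ^ e.val, by omega⟩, σ a e i)) :=
    Or.inr ⟨e, rfl, rfl⟩
  simp only at h
  rw [h] at this
  rcases this with h1 | ⟨e', h1, h2⟩
  · simp only at h1; omega
  · simp only [add_right_inj] at h1 h2
    have he : e = e' := Fin.ext (Nat.pow_right_injective le_rfl h1)
    subst he
    rw [h2]

theorem ne_zero {k j : ℕ} (h0 : 0 < j) (h : j < k) : ((j : ℕ) : ZMod k) ≠ 0 := fun e =>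
  absurd (Nat.le_of_dvd h0 ((ZMod.natCast_eq_zero_iff j k).1 e)) (by omega)

theorem gr_chordal {B m : ℕ} (σ : Fin B → Fin 32 → Equiv.Perm (Fin m)) (k : ℕ) (hk : 4 ≤ k)
    (f : ZMod k → W B m) (hf : Function.Injective f)
    (h : ∀ i j, (gr σ).Adj (f i) (f j) ↔ j = i + 1 ∨ i = j + 1) : False := by
  have n1 : (1 : ZMod k) ≠ 0 := by simpa using ne_zero (k := k) (j := 1) (by omega) (by omega)
  have n2 : (2 : ZMod k) ≠ 0 := by simpa using ne_zero (k := k) (j := 2) (by omega) (by omega)
  have n3 : (3 : ZMod k) ≠ 0 := by simpa using ne_zero (k := k) (j := 3) (by omega) (by omega)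
  have two : ∀ i, ∀ q q', f i = .inr q → f (i + 2) = .inr q' → False := by
    intro i q q' e e'
    have : (gr σ).Adj (f i) (f (i + 2)) := by
      rw [e, e']
      intro h
      refine n2 ?_
      have := hf (show f i = f (i + 2) by rw [e, e', h])
      linear_combination -this
    rcases (h _ _).1 this with h | h
    · exact n1 (by linear_combination h)
    · exact n3 (by linear_combination -h)
  have all : ∀ i, ∃ q, f i = .inr q := by
    intro i
    have a1 := (h i (i + 1)).2 (Or.inl rfl)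
    have a2 := (h i (i - 1)).2 (Or.inr (by ring))
    rcases e : f i with p | q
    · rcases e1 : f (i + 1) with p1 | q1
      · rw [e, e1] at a1; exact a1.elim
      rcases e2 : f (i - 1) with p2 | q2
      · rw [e, e2] at a2; exact a2.elim
      exact (two (i - 1) q2 q1 e2 (by rw [← e1]; congr 1; ring)).elim
    · exact ⟨q, rfl⟩
  obtain ⟨q, e⟩ := all 0
  obtain ⟨q', e'⟩ := all (0 + 2)
  exact two 0 q q' e e'

theorem gr_sun {B m : ℕ} (σ : Fin B → Fin 32 → Equiv.Perm (Fin m)) (k : ℕ) (hk : 3 ≤ k)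
    (u w : ZMod k → W B m) (hu : Function.Injective u) (hw : Function.Injective w)
    (h1 : ∀ i j, ¬ (gr σ).Adj (u i) (u j))
    (h : ∀ i j, (gr σ).Adj (u i) (w j) ↔ j = i ∨ j = i + 1) : False := by
  have : NeZero k := ⟨by omega⟩
  have n1 : (1 : ZMod k) ≠ 0 := by simpa using ne_zero (k := k) (j := 1) (by omega) (by omega)
  have n2 : (2 : ZMod k) ≠ 0 := by simpa using ne_zero (k := k) (j := 2) (by omega) (by omega)
  have wk : ∀ j, ∃ q, w j = .inr q := by
    intro j
    have a1 := (h j j).2 (Or.inl rfl)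
    have a2 := (h (j - 1) j).2 (Or.inr (by ring))
    rcases e : w j with p | q
    · rcases e1 : u j with p1 | q1
      · rw [e, e1] at a1; exact a1.elim
      rcases e2 : u (j - 1) with p2 | q2
      · rw [e, e2] at a2; exact a2.elim
      refine (h1 j (j - 1) ?_).elim
      rw [e1, e2]
      intro h
      have := hu (show u j = u (j - 1) by rw [e1, e2, h])
      exact n1 (by linear_combination this)
    · exact ⟨q, rfl⟩
  choose q hq using wk
  have ui : ∀ i, ∃ p, u i = .inl p := by
    intro i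
    rcases e : u i with p | q'
    · exact ⟨p, rfl⟩
    exfalso
    have ne : q' ≠ q (i + 2) := by
      intro e'
      have := (h (i + 1) (i + 2)).2 (Or.inr (by ring))
      rw [hq, ← e', ← e] at this
      exact h1 _ _ this
    have : (gr σ).Adj (u i) (w (i + 2)) := by rw [e, hq]; exact ne
    rcases (h _ _).1 this with h | h
    · exact n2 (by linear_combination h)
    · exact n1 (by linear_combination h)
  choose p hp using ui
  have hR : ∀ i j, R σ (p i) (q j) ↔ j = i ∨ j = i + 1 := fun i j => by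
    rw [← h, hp, hq]; rfl
  have pi : Function.Injective p := fun i j e => hu (by rw [hp, hp, e])
  have qi : Function.Injective q := fun i j e => hw (by rw [hq, hq, e])
  obtain ⟨i, hi⟩ := Finite.exists_min (fun i => (p i).1.val)
  rcases le_total (q i).1.val (q (i + 1)).1.val with hb | hb
  · have := gamma σ (hi (i + 1)) hb (fun e => n1 (by linear_combination -pi e))
      (fun e => n1 (by linear_combination qi e)) ((hR _ _).2 (Or.inr rfl))
      ((hR _ _).2 (Or.inl rfl)) ((hR _ _).2 (Or.inl rfl))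
    rcases (hR _ _).1 this with h | h
    · exact n1 (by linear_combination -h)
    · exact n2 (by linear_combination -h)
  · have := gamma σ (hi (i - 1)) hb (fun e => n1 (by linear_combination pi e))
      (fun e => n1 (by linear_combination -qi e)) ((hR _ _).2 (Or.inl rfl))
      ((hR _ _).2 (Or.inr rfl)) ((hR _ _).2 (Or.inr (by ring)))
    rcases (hR _ _).1 this with h | h
    · exact n2 (by linear_combination h)
    · exact n1 (by linear_combination h)

open Pool.Agent.Lib.helper8.Signs in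
theorem count (B m : ℕ) (hB : B = 2 ^ 31) (hm : m = 2 ^ 200)
    (h : ∀ σ : Fin B → Fin 32 → Equiv.Perm (Fin m), ∃ (p : W B m → W B m)
      (s : Finset (Bool × W B m × W B m × W B m)),
      (∃ x, ∀ i, i ∈ s ↔ 0 < form i x) ∧ gr σ = dec p s) : False := by
  classical
  choose p s h1 h2 using h
  let 𝒜 := Finset.univ.image s
  have b1 := signs form 𝒜 (fun t ht => by
    obtain ⟨c, -, rfl⟩ := Finset.mem_image.1 ht
    exact h1 c)
  have b0 : (Finset.univ : Finset (Fin B → Fin 32 → Equiv.Perm (Fin m))).card ≤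
      ((Finset.univ : Finset (W B m → W B m)) ×ˢ 𝒜).card := by
    refine Finset.card_le_card_of_injOn (fun σ => (p σ, s σ)) (fun σ _ => ?_) (fun a _ b _ e => ?_)
    · simp [𝒜]
    · simp only [Prod.mk.injEq] at e
      refine gr_inj hB ?_
      simp only
      rw [h2 a, h2 b, e.1, e.2]
  rw [Finset.card_product] at b0
  rw [Module.finrank_fintype_fun_eq_card] at b1
  simp only [Finset.card_univ, Fintype.card_fun, Fintype.card_perm, Fintype.card_prod,
    Fintype.card_fin, Fintype.card_bool] at b0 b1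
  have cn : Fintype.card (W B m) = 3 * (B * m) := by
    simp only [Fintype.card_sum, Fintype.card_prod, Fintype.card_fin]; ring
  rw [cn] at b0 b1
  obtain ⟨N, hN⟩ : ∃ N, N = B * m := ⟨_, rfl⟩
  rw [← hN] at b0 b1
  have N1 : N = 2 ^ 231 := by rw [hN, hB, hm, ← pow_add]
  have N0 : 0 < N := by rw [N1]; positivity
  obtain ⟨n, hn⟩ : ∃ n, n = 3 * N := ⟨_, rfl⟩
  rw [← hn] at b0 b1
  have n1 : (1 : ℝ) ≤ n := by exact_mod_cast (show 1 ≤ n by omega)
  have n2 : (n : ℝ) ≤ 2 ^ 233 := by exact_mod_cast (show n ≤ 2 ^ 233 by omega)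
  have b2 := sum_choose_le (2 * (n * (n * n))) (4 * n) ((n : ℝ) ^ 2) (one_le_pow₀ n1)
  have e3 : ((2 * (n * (n * n)) : ℕ) : ℝ) / (n : ℝ) ^ 2 = (2 * n : ℕ) * 1 := by
    push_cast; field_simp
  rw [e3, Real.exp_nat_mul] at b2
  have e4 : Real.exp 1 ≤ 2 ^ 2 := by linarith [Real.exp_one_lt_d9]
  have b3 : Real.exp 1 ^ (2 * n) ≤ (2 ^ 2) ^ (2 * n) := pow_le_pow_left₀ (Real.exp_pos _).le e4 _
  have b4 : ((n : ℝ) ^ 2) ^ (4 * n) ≤ ((2 ^ 233) ^ 2) ^ (4 * n) := by gcongr
  have b5 : (n : ℝ) ^ n ≤ (2 ^ 233) ^ n := by gcongr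
  have b6 : ((2 : ℝ) ^ 198) ^ m ≤ m.factorial := by
    have f1 := Real.pow_div_factorial_le_exp (m : ℝ) (by positivity) m
    rw [div_le_iff₀ (by positivity), show (m : ℝ) = m * 1 by ring, Real.exp_nat_mul, mul_one] at f1
    have f2 : Real.exp 1 ^ m ≤ (2 ^ 2) ^ m := pow_le_pow_left₀ (Real.exp_pos _).le e4 _
    have f3 : (m : ℝ) = 2 ^ 2 * 2 ^ 198 := by rw [hm]; norm_num
    have f4 : (m : ℝ) ^ m = (2 ^ 2) ^ m * (2 ^ 198) ^ m := by rw [← mul_pow, ← f3]
    rw [f4] at f1
    exact le_of_mul_le_mul_left (f1.trans (mul_le_mul_of_nonneg_right f2 (by positivity)))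
      (by positivity)
  have b7 : ((((2 : ℝ) ^ 198) ^ m) ^ 32) ^ B ≤ ((m.factorial : ℝ) ^ 32) ^ B := by gcongr
  clear hB hm N1 n2 h1 h2
  have b8 : ((m.factorial : ℝ) ^ 32) ^ B ≤ (n : ℝ) ^ n * 𝒜.card := by
    have := (Nat.cast_le (α := ℝ)).2 b0
    simp only [Nat.cast_pow, Nat.cast_mul] at this
    exact this
  have b9 : (𝒜.card : ℝ) ≤ ((2 ^ 233) ^ 2) ^ (4 * n) * (2 ^ 2) ^ (2 * n) :=
    le_trans ((Nat.cast_le (α := ℝ)).2 b1)
      (b2.trans (mul_le_mul b4 b3 (by positivity) (by positivity)))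
  have fin := b7.trans (b8.trans (mul_le_mul b5 b9 (by positivity) (by positivity)))
  rw [← pow_mul, ← pow_mul, ← pow_mul, ← pow_mul, ← pow_mul, ← pow_mul, ← pow_mul, ← pow_add,
    ← pow_add] at fin
  have := (pow_le_pow_iff_right₀ (by norm_num)).1 fin
  have e5 : 198 * (m * (32 * B)) = 6336 * N := by rw [hN]; ring
  omega

theorem untrunc {X : Type} [MetricSpace X] [CompactSpace X]
    (hg : ∀ (x y : X) (s : ℝ), 0 ≤ s → s ≤ dist x y → ∃ z, dist x z = s ∧ dist z y = dist x y - s)
    (h4 : ∀ x y z w : X, dist x y + dist z w ≤ max (dist x z + dist y w) (dist x w + dist y z))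
    (c : X) (r : ℝ) (hr : 0 ≤ r) :
    ∃ c' r', closedBall c r = closedBall c' r' ∧
      ∃ p ∈ closedBall c' r', ∃ q ∈ closedBall c' r', dist p q = 2 * r' := by
  have hc : IsCompact (closedBall c r ×ˢ closedBall c r) :=
    (isCompact_closedBall c r).prod (isCompact_closedBall c r)
  obtain ⟨⟨p, q⟩, ⟨hp, hq⟩, hm⟩ := hc.exists_isMaxOn
    ⟨(c, c), mem_closedBall_self hr, mem_closedBall_self hr⟩
    (f := fun z : X × X => dist z.1 z.2) (by fun_prop)
  have hm' : ∀ a ∈ closedBall c r, ∀ b ∈ closedBall c r, dist a b ≤ dist p q :=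
    fun a ha b hb => hm (show (a, b) ∈ closedBall c r ×ˢ closedBall c r from ⟨ha, hb⟩)
  have d0 := dist_nonneg (x := p) (y := q)
  obtain ⟨z, z1, z2⟩ := hg p q (dist p q / 2) (by linarith) (by linarith)
  have z3 := dist_comm z p
  have z4 := dist_comm z q
  refine ⟨z, dist p q / 2, ?_, p, mem_closedBall.2 (by linarith), q,
    mem_closedBall.2 (by linarith), by ring⟩
  ext a
  constructor
  · intro ha
    have a1 := hm' a ha p hp
    have a2 := hm' a ha q hq
    rw [mem_closedBall]
    rcases le_max_iff.1 (h4 a z p q) with h | h <;> linarith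
  · intro ha
    simp only [mem_closedBall] at ha hp hq ⊢
    have := dist_triangle a z c
    have := dist_comm c z
    have := dist_comm c p
    have := dist_comm c q
    rcases le_max_iff.1 (h4 c z p q) with h | h <;> linarith

theorem diam_iff {X : Type} [MetricSpace X] [CompactSpace X] (S : Set X) (hS : IsClosed S) (τ : ℝ) :
    (S.Nonempty ∧ τ ≤ diam S) ↔ ∃ p ∈ S, ∃ q ∈ S, τ ≤ dist p q := by
  constructor
  · rintro ⟨⟨c, hc⟩, h⟩
    obtain ⟨⟨p, q⟩, ⟨hp, hq⟩, hm⟩ := (hS.isCompact.prod hS.isCompact).exists_isMaxOn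
      ⟨(c, c), hc, hc⟩ (f := fun z : X × X => dist z.1 z.2) (by fun_prop)
    refine ⟨p, hp, q, hq, h.trans (diam_le_of_forall_dist_le dist_nonneg ?_)⟩
    exact fun a ha b hb => hm (show (a, b) ∈ S ×ˢ S from ⟨ha, hb⟩)
  · rintro ⟨p, hp, q, hq, h⟩
    exact ⟨⟨p, hp⟩, h.trans (dist_le_diam_of_mem hS.isCompact.isBounded hp hq)⟩

end Pool.Agent.H.MP_64e20d_co
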